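import Mathlib
import Pool.Agent.Q292.UK.Final

/-!
# Growth constants of the moments of the Ulam-Kac adder

The adder exists, and for every realization of it and every `m ≥ 1`:
`exp (e^{0.3 m} √n) ≤ E[X_n^m] ≤ exp (e^{0.4 m + 1} √n)` for all large `n`, and the growth constant
`c_m = lim log E[X_n^m] / √n` satisfies `0.3 m ≤ log c_m ≤ 0.4 m + 1` and
`2 √(2^m - 1) ≤ c_m ≤ (7/2) 2^{m/2}`.
-/

namespace Pool.Agent.Results.MP_a2947a_pr.GrowthConstants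

open Q292.UK MeasureTheory Filter Topology

theorem result :
    (∃ (Ω : Type) (_ : MeasurableSpace Ω) (P : Measure Ω) (_ : IsProbabilityMeasure P)
      (U : (n : ℕ) → Ω → Fin (n + 1)) (X : ℕ → Ω → ℝ), IsAdder P U X) ∧
    ∀ (Ω : Type*) [MeasurableSpace Ω] (P : Measure Ω) [IsProbabilityMeasure P]
      (U : (n : ℕ) → Ω → Fin (n + 1)) (X : ℕ → Ω → ℝ), IsAdder P U X → ∀ m : ℕ, 1 ≤ m →
      (∀ᶠ n : ℕ in atTop, Real.exp (Real.exp (0.3 * m) * √n) ≤ ∫ ω, X n ω ^ m ∂P ∧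
        ∫ ω, X n ω ^ m ∂P ≤ Real.exp (Real.exp (0.4 * m + 1) * √n)) ∧
      ∀ c : ℝ, Tendsto (fun n : ℕ => Real.log (∫ ω, X n ω ^ m ∂P) / √n) atTop (𝓝 c) →
        0.3 * m ≤ Real.log c ∧ Real.log c ≤ 0.4 * m + 1 ∧
        2 * √(2 ^ m - 1) ≤ c ∧ c ≤ 7 / 2 * √(2 ^ m) :=
  ⟨exists_adder, fun _ _ _ _ _ _ hX _ hm => main_bounds hX hm⟩

end Pool.Agent.Results.MP_a2947a_pr.GrowthConstants
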